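import Pool.Agent.Work.MP_8c679b_co.Six.CFourB
import Pool.Agent.Work.MP_8c679b_co.Red

/-!
Six-flows on cubic signed graphs in which every cut with at most three edges has a balanced side.
-/

set_option autoImplicit false

namespace Pool.Agent.Work.MP_8c679b_co.Old.CyclicFour

open Pool.Agent.Work.MP_8c679b_co

/-- Let a finite cubic signed multigraph be given in which, for every vertex set `X` with at most
three leaving edges, the subgraph induced by `X` or the subgraph induced by its complement is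
balanced.  If it has some nowhere-zero integer flow then it has a nowhere-zero integer flow with
all values of absolute value less than 6. -/
theorem result :
    ∀ (n m : ℕ) (s t : Fin m → Fin n) (σ : Fin m → ℤ),
      (∀ e, σ e = 1 ∨ σ e = -1) →
      (∀ x : Fin n, (Finset.univ.filter fun e => s e = x).card +
        (Finset.univ.filter fun e => t e = x).card = 3) →
      (∀ X : Finset (Fin n), (Finset.univ.filter fun e => ¬ (s e ∈ X ↔ t e ∈ X)).card ≤ 3 →
        (∃ p : Fin n → ℤ, (∀ v, p v = 1 ∨ p v = -1) ∧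
          ∀ e, s e ∈ X → t e ∈ X → σ e = p (s e) * p (t e)) ∨
        (∃ p : Fin n → ℤ, (∀ v, p v = 1 ∨ p v = -1) ∧
          ∀ e, s e ∉ X → t e ∉ X → σ e = p (s e) * p (t e))) →
      (∃ f : Fin m → ℤ, (∀ e, f e ≠ 0) ∧
        ∀ x : Fin n, ∑ e, ((if s e = x then f e else 0) - (if t e = x then σ e * f e else 0)) = 0) →
      ∃ f : Fin m → ℤ, (∀ e, f e ≠ 0 ∧ |f e| < 6) ∧
        ∀ x : Fin n, ∑ e, ((if s e = x then f e else 0) - (if t e = x then σ e * f e else 0)) = 0 := by
  intro n m s t σ hσ h3 h4 ⟨f, hf, hc⟩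
  let G : SG (Fin n) (Fin m) := ⟨Finset.univ, s, t, fun e => if σ e = 1 then 0 else 1⟩
  have key : ∀ (g : Fin m → ℤ) (x : Fin n), G.bd g x =
      ∑ e, ((if s e = x then g e else 0) - (if t e = x then σ e * g e else 0)) := by
    intro g x
    refine Finset.sum_congr rfl fun e _ => ?_
    have h : (chi (if σ e = 1 then 0 else 1) : ℤ) = σ e := by
      rcases hσ e with h | h <;> simp [h]
    show (iv (s e = x) - iv (t e = x) * chi (if σ e = 1 then 0 else 1)) * g e = _
    rw [h]
    unfold iv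
    split_ifs <;> ring
  have cub : G.Cub := fun x => Or.inr (by
    rw [← h3 x, Finset.card_filter, Finset.card_filter, ← Finset.sum_add_distrib]
    rfl)
  have bal : ∀ (X : Finset (Fin n)) (p : Fin n → ℤ), (∀ v, p v = 1 ∨ p v = -1) →
      (∀ e, s e ∈ X → t e ∈ X → σ e = p (s e) * p (t e)) → G.Bal (G.ins X) := by
    intro X p h1 h2
    refine ⟨fun v => if p v = 1 then 0 else 1, fun e he => ?_⟩
    obtain ⟨-, k1, k2⟩ := SG.mem_ins.1 he
    have k3 := h2 e k1 k2
    show (if σ e = 1 then 0 else 1) + (if p (s e) = 1 then 0 else 1) +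
      (if p (t e) = 1 then 0 else 1) = (0 : ZMod 2)
    rcases h1 (s e) with a | a <;> rcases h1 (t e) with b | b <;> rw [k3, a, b] <;> decide
  have adm : G.Adm := ⟨f, fun x => by rw [key, hc], fun e _ => hf e⟩
  obtain ⟨g, g1, g2⟩ := SG.Cl4.six cub ⟨adm.adm1, fun _ => adm.erase⟩ fun X hX =>
    (h4 X hX).imp (fun ⟨p, h1, h2⟩ => bal X p h1 h2) fun ⟨p, h1, h2⟩ => bal _ p h1 fun e a b =>
      h2 e (Finset.mem_sdiff.1 a).2 (Finset.mem_sdiff.1 b).2
  refine ⟨g, fun e => ⟨(g2 e (Finset.mem_univ e)).1, ?_⟩, fun x => by rw [← key, g1]⟩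
  have := (g2 e (Finset.mem_univ e)).2
  omega

end Pool.Agent.Work.MP_8c679b_co.Old.CyclicFour
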