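import Pool.Agent.Work.MP_8c679b_co.Nine

/-!
Every flow-admissible signed graph has a nowhere-zero 9-flow.
-/

set_option autoImplicit false

namespace Pool.Agent.Work.MP_8c679b_co.Old.NineFlow

open Pool.Agent.Work.MP_8c679b_co

/-- For every finite signed multigraph (loops and parallel edges allowed) that has some
nowhere-zero integer flow in the bidirected sense, there is a nowhere-zero integer flow with all
values of absolute value less than 9. -/
theorem result :
    ∀ (n m : ℕ) (s t : Fin m → Fin n) (σ : Fin m → ℤ),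
      (∀ e, σ e = 1 ∨ σ e = -1) →
      (∃ f : Fin m → ℤ, (∀ e, f e ≠ 0) ∧
        ∀ x : Fin n, ∑ e, ((if s e = x then f e else 0) - (if t e = x then σ e * f e else 0)) = 0) →
      ∃ f : Fin m → ℤ, (∀ e, f e ≠ 0 ∧ |f e| < 9) ∧
        ∀ x : Fin n, ∑ e, ((if s e = x then f e else 0) - (if t e = x then σ e * f e else 0)) = 0 := by
  intro n m s t σ hσ ⟨f, hf, hc⟩
  let G : SG (Fin n) (Fin m) := ⟨Finset.univ, s, t, fun e => if σ e = 1 then 0 else 1⟩
  have key : ∀ (g : Fin m → ℤ) (x : Fin n), G.bd g x =
      ∑ e, ((if s e = x then g e else 0) - (if t e = x then σ e * g e else 0)) := by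
    intro g x
    refine Finset.sum_congr rfl fun e _ => ?_
    have h : (chi (if σ e = 1 then 0 else 1) : ℤ) = σ e := by
      rcases hσ e with h | h <;> simp [h]
    show (iv (s e = x) - iv (t e = x) * chi (if σ e = 1 then 0 else 1)) * g e = _
    rw [h]
    unfold iv
    split_ifs <;> ring
  obtain ⟨g, g1, g2⟩ := SG.nine (G := G) ⟨f, fun x => by rw [key, hc], fun e _ => hf e⟩
  refine ⟨g, fun e => ⟨(g2 e (Finset.mem_univ e)).1, ?_⟩, fun x => by rw [← key, g1]⟩
  have := (g2 e (Finset.mem_univ e)).2
  omega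

end Pool.Agent.Work.MP_8c679b_co.Old.NineFlow
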